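import Pool.Agent.Helper72.MK.GoalsT

/-!
# Area of a convex set in a quadrant
-/

open MeasureTheory Set Filter Topology
open scoped ENNReal

namespace Pool.Agent.Helper51.MK

open Pool.Agent.Helper72.MK

theorem quad (hTRI : TRIStmt) : QUADStmt := by
  intro L hL h0 a b r s ha hb hr hs haL hbL hrsL
  set Q : Set (Fin 2 → ℝ) := {x | 0 < x 0 ∧ 0 < x 1} with hQ
  set H : Set (Fin 2 → ℝ) := {x | x 1 * r < x 0 * s} with hH
  have hHm : MeasurableSet H := by
    refine (isOpen_lt ?_ ?_).measurableSet <;> fun_prop
  -- the open triangle spanned by `0`, `u`, `w` lies in `L`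
  have htri : ∀ u ∈ L, ∀ w ∈ L, ∀ s' t' : ℝ, 0 < s' → 0 < t' → s' + t' < 1 →
      s' • u + t' • w ∈ L := by
    intro u hu w hw s' t' hs' ht' hst
    have h1 : (s' / (s' + t')) • u + (t' / (s' + t')) • w ∈ L := by
      refine hL hu hw (by positivity) (by positivity) ?_
      field_simp
    have h2 : (1 - (s' + t')) • (0 : Fin 2 → ℝ) +
        (s' + t') • ((s' / (s' + t')) • u + (t' / (s' + t')) • w) ∈ L :=
      hL h0 h1 (by linarith) (by positivity) (by ring)
    have h3 : (1 - (s' + t')) • (0 : Fin 2 → ℝ) +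
        (s' + t') • ((s' / (s' + t')) • u + (t' / (s' + t')) • w) = s' • u + t' • w := by
      have hne : s' + t' ≠ 0 := by positivity
      rw [smul_zero, zero_add, smul_add, smul_smul, smul_smul, mul_div_cancel₀ _ hne,
        mul_div_cancel₀ _ hne]
    rwa [h3] at h2
  have hT1 : ENNReal.ofReal (a * s / 2) ≤ volume ((L ∩ Q) ∩ H) := by
    rcases (mul_nonneg ha hs).eq_or_lt with h | h
    · rw [← h]; simp
    · have hapos : 0 < a := by
        rcases ha.eq_or_lt with h' | h'
        · rw [← h'] at h; simp at h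
        · exact h'
      have hspos : 0 < s := by
        rcases hs.eq_or_lt with h' | h'
        · rw [← h'] at h; simp at h
        · exact h'
      have e := hTRI ![a, 0] ![r, s]
      have hd : |(![a, 0] : Fin 2 → ℝ) 0 * (![r, s] : Fin 2 → ℝ) 1 -
          (![a, 0] : Fin 2 → ℝ) 1 * (![r, s] : Fin 2 → ℝ) 0| = a * s := by
        simp [abs_of_nonneg ha, abs_of_nonneg hs]
      rw [hd] at e
      rw [← e]
      refine measure_mono ?_
      rintro x ⟨s', t', hs', ht', hst, rfl⟩
      refine ⟨⟨htri _ haL _ hrsL _ _ hs' ht' hst, ?_⟩, ?_⟩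
      · refine ⟨?_, ?_⟩
        · simp
          positivity
        · simp
          positivity
      · simp only [hH, mem_setOf_eq, Pi.add_apply, Pi.smul_apply, smul_eq_mul,
          Matrix.cons_val_zero, Matrix.cons_val_one, mul_zero, zero_add]
        have : 0 < s' * (a * s) := mul_pos hs' h
        nlinarith
  have hT2 : ENNReal.ofReal (b * r / 2) ≤ volume ((L ∩ Q) \ H) := by
    rcases (mul_nonneg hb hr).eq_or_lt with h | h
    · rw [← h]; simp
    · have hbpos : 0 < b := by
        rcases hb.eq_or_lt with h' | h'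
        · rw [← h'] at h; simp at h
        · exact h'
      have hrpos : 0 < r := by
        rcases hr.eq_or_lt with h' | h'
        · rw [← h'] at h; simp at h
        · exact h'
      have e := hTRI ![r, s] ![0, b]
      have hd : |(![r, s] : Fin 2 → ℝ) 0 * (![0, b] : Fin 2 → ℝ) 1 -
          (![r, s] : Fin 2 → ℝ) 1 * (![0, b] : Fin 2 → ℝ) 0| = b * r := by
        simp [abs_of_nonneg hb, abs_of_nonneg hr, mul_comm]
      rw [hd] at e
      rw [← e]
      refine measure_mono ?_
      rintro x ⟨s', t', hs', ht', hst, rfl⟩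
      refine ⟨⟨htri _ hrsL _ hbL _ _ hs' ht' hst, ?_⟩, ?_⟩
      · refine ⟨?_, ?_⟩
        · simp
          positivity
        · simp
          positivity
      · simp only [hH, mem_setOf_eq, Pi.add_apply, Pi.smul_apply, smul_eq_mul,
          Matrix.cons_val_zero, Matrix.cons_val_one, mul_zero, add_zero, not_lt]
        have : 0 < t' * (b * r) := mul_pos ht' h
        nlinarith
  calc ENNReal.ofReal ((a * s + b * r) / 2)
      = ENNReal.ofReal (a * s / 2) + ENNReal.ofReal (b * r / 2) := by
        rw [← ENNReal.ofReal_add (by positivity) (by positivity)]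
        congr 1
        ring
    _ ≤ volume ((L ∩ Q) ∩ H) + volume ((L ∩ Q) \ H) := add_le_add hT1 hT2
    _ = volume (L ∩ Q) := measure_inter_add_diff _ hHm

end Pool.Agent.Helper51.MK
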